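import Pool.Agent.W96.CL.Stm
import Pool.Agent.H974R2.Cross

set_option autoImplicit false

/-! GLUE: gluing of crossings at `p = 1/2` -/

namespace W96CL

namespace Glu

open Finset

/-- the open edges as a set of edges of the lattice -/
def FS {a b : ℕ} (ω : Edg a b → Bool) : Set H974.Edg :=
  {e | (∃ (i : Fin a) (j : Fin (b + 1)), e = ((i.val : ℤ), (j.val : ℤ), true) ∧
      ω (Sum.inl (i, j)) = true) ∨
    ∃ (i : Fin (a + 1)) (j : Fin b), e = ((i.val : ℤ), (j.val : ℤ), false) ∧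
      ω (Sum.inr (i, j)) = true}

theorem eqv_reach {w h : ℕ} {η : Edg w h → Bool} (T : ℕ × ℕ → H974.Vtx) (G : Set H974.Edg)
    (hT : ∀ p q, Step η p q → H974.Reach G (T p) (T q)) {p q : ℕ × ℕ}
    (h : Relation.EqvGen (Step η) p q) : H974.Reach G (T p) (T q) := by
  induction h with
  | rel x y hxy => exact hT x y hxy
  | refl x => exact H974.Reach.refl _ _
  | symm x y _ ih => exact ih.symm
  | trans x y z _ _ ih1 ih2 => exact ih1.trans ih2

theorem reach_eqv {w h : ℕ} {ω : Edg w h → Bool} {u v : H974.Vtx}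
    (hr : H974.Reach (FS ω) u v) :
    Relation.EqvGen (Step ω) (u.1.toNat, u.2.toNat) (v.1.toNat, v.2.toNat) := by
  have hstep : ∀ e ∈ FS ω, Step ω ((H974.src e).1.toNat, (H974.src e).2.toNat)
      ((H974.tgt e).1.toNat, (H974.tgt e).2.toNat) := by
    rintro e (⟨i, j, rfl, h⟩ | ⟨i, j, rfl, h⟩)
    · have := Step.hor i j h
      have e1 : ((i.val : ℤ) + 1).toNat = i.val + 1 := by omega
      simpa [H974.src, H974.tgt, e1] using this
    · have := Step.ver i j h
      have e1 : ((j.val : ℤ) + 1).toNat = j.val + 1 := by omega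
      simpa [H974.src, H974.tgt, e1] using this
  induction hr with
  | refl => exact Relation.EqvGen.refl _
  | tail _ hs ih =>
    obtain ⟨e, he, ⟨h1, h2⟩ | ⟨h1, h2⟩⟩ := hs
    · have := hstep e he
      rw [h1, h2] at this
      exact ih.trans _ _ _ (Relation.EqvGen.rel _ _ this)
    · have := hstep e he
      rw [h1, h2] at this
      exact ih.trans _ _ _ ((Relation.EqvGen.rel _ _ this).symm _ _)

/-- a horizontal path and a vertical path through a rectangle meet. -/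
theorem meet {K H : Set H974.Edg} {a b c d : ℤ} (hab : a < b) (hcd : c < d) (hHK : H ⊆ K)
    (hG1 : ∀ x y, ((x, y, true) : H974.Edg) ∈ K → a ≤ x → x < b → c ≤ y ∧ y ≤ d)
    (hG2 : ∀ x y, ((x, y, false) : H974.Edg) ∈ K → a < x → x < b → c ≤ y ∧ y < d)
    (hH1 : ∀ x y, ((x, y, false) : H974.Edg) ∈ H → c ≤ y → y < d → a ≤ x ∧ x ≤ b)
    (hH2 : ∀ x y, ((x, y, true) : H974.Edg) ∈ H → c < y → y < d → a ≤ x ∧ x < b)
    {u v u' v' : H974.Vtx} (h1 : H974.Reach K u v) (hu : u.1 ≤ a) (hv : b ≤ v.1)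
    (h2 : H974.Reach H u' v') (hu' : u'.2 ≤ c) (hv' : d ≤ v'.2) : H974.Reach K u u' := by
  obtain ⟨y1, y2, k1, k2, k3, k4⟩ := H974.sub_LR hab hG1 hG2 h1 hu hv
  obtain ⟨x1, x2, l1, l2, l3, l4⟩ := H974.sub_TB hcd hH1 hH2 h2 hu' hv'
  have m := H974.crossings_meet hab hcd.le (F := K) k2 l1 k3
    (l3.mono (by rintro e ⟨h7, h8⟩; exact ⟨hHK h7, h8⟩))
  exact k4.trans ((m.mono Set.inter_subset_left).trans (l4.symm.mono hHK))

/-- horizontal embedding of rectangles -/
def embX {w M b s : ℕ} (h : s + w ≤ M) : Edg w b → Edg M b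
  | Sum.inl (i, j) => Sum.inl (⟨s + i.val, by omega⟩, j)
  | Sum.inr (i, j) => Sum.inr (⟨s + i.val, by omega⟩, j)

/-- embedding of the reflected square -/
def embC {M b s : ℕ} (h : s + b ≤ M) : Edg b b → Edg M b
  | Sum.inl (i, j) => Sum.inr (⟨s + j.val, by omega⟩, i)
  | Sum.inr (i, j) => Sum.inl (⟨s + j.val, by omega⟩, i)

theorem embX_inj {w M b s : ℕ} (h : s + w ≤ M) :
    Function.Injective (embX h : Edg w b → Edg M b) := by
  rintro (⟨i, j⟩ | ⟨i, j⟩) (⟨i', j'⟩ | ⟨i', j'⟩) he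
  · simp only [embX, Sum.inl.injEq, Prod.mk.injEq, Fin.mk.injEq] at he
    have : i = i' := Fin.ext (by omega)
    rw [this, he.2]
  · simp [embX] at he
  · simp [embX] at he
  · simp only [embX, Sum.inr.injEq, Prod.mk.injEq, Fin.mk.injEq] at he
    have : i = i' := Fin.ext (by omega)
    rw [this, he.2]

theorem embC_inj {M b s : ℕ} (h : s + b ≤ M) :
    Function.Injective (embC h : Edg b b → Edg M b) := by
  rintro (⟨i, j⟩ | ⟨i, j⟩) (⟨i', j'⟩ | ⟨i', j'⟩) he
  · simp only [embC, Sum.inr.injEq, Prod.mk.injEq, Fin.mk.injEq] at he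
    have : j = j' := Fin.ext (by omega)
    rw [this, he.2]
  · simp [embC] at he
  · simp [embC] at he
  · simp only [embC, Sum.inl.injEq, Prod.mk.injEq, Fin.mk.injEq] at he
    have : j = j' := Fin.ext (by omega)
    rw [this, he.2]

theorem stepX {w M b s : ℕ} (h : s + w ≤ M) (ω : Edg M b → Bool) {p q : ℕ × ℕ}
    (hs : Step (ω ∘ embX h) p q) :
    H974.Reach (FS ω) ((s : ℤ) + p.1, (p.2 : ℤ)) ((s : ℤ) + q.1, (q.2 : ℤ)) := by
  cases hs with
  | hor i j ho =>
    apply H974.Adj.reach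
    refine ⟨(((s + i.val : ℕ) : ℤ), (j.val : ℤ), true), Or.inl ⟨⟨s + i.val, by omega⟩, j, rfl, ho⟩,
      Or.inl ⟨?_, ?_⟩⟩
    · simp [H974.src]
    · simp [H974.tgt]; ring
  | ver i j ho =>
    apply H974.Adj.reach
    refine ⟨(((s + i.val : ℕ) : ℤ), (j.val : ℤ), false), Or.inr ⟨⟨s + i.val, by omega⟩, j, rfl, ho⟩,
      Or.inl ⟨?_, ?_⟩⟩
    · simp [H974.src]
    · simp [H974.tgt]

/-- the open edges of the square -/
def FC {M b : ℕ} (s : ℕ) (ω : Edg M b → Bool) : Set H974.Edg :=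
  {e | e ∈ FS ω ∧ (s : ℤ) ≤ e.1 ∧ (if e.2.2 then e.1 < s + b else e.1 ≤ s + b)}

theorem stepC {M b s : ℕ} (h : s + b ≤ M) (ω : Edg M b → Bool) {p q : ℕ × ℕ}
    (hs : Step (ω ∘ embC h) p q) :
    H974.Reach (FC s ω) ((s : ℤ) + p.2, (p.1 : ℤ)) ((s : ℤ) + q.2, (q.1 : ℤ)) := by
  cases hs with
  | hor i j ho =>
    apply H974.Adj.reach
    refine ⟨(((s + j.val : ℕ) : ℤ), (i.val : ℤ), false),
      ⟨Or.inr ⟨⟨s + j.val, by omega⟩, i, rfl, ho⟩, ?_, ?_⟩, Or.inl ⟨?_, ?_⟩⟩
    · simp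
    · have := j.isLt
      simp only [Bool.false_eq_true, if_false]; omega
    · simp [H974.src]
    · simp [H974.tgt]
  | ver i j ho =>
    apply H974.Adj.reach
    refine ⟨(((s + j.val : ℕ) : ℤ), (i.val : ℤ), true),
      ⟨Or.inl ⟨⟨s + j.val, by omega⟩, i, rfl, ho⟩, ?_, ?_⟩, Or.inl ⟨?_, ?_⟩⟩
    · simp
    · have := j.isLt
      simp only [if_true]; omega
    · simp [H974.src]
    · simp [H974.tgt]; ring

/-- the three crossings give the long crossing -/
theorem glue_det {a a' b : ℕ} (ω : Edg (a + a' + b) b → Bool)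
    (hA : Cross (ω ∘ (embX (s := 0) (w := a + b) (by omega) : Edg (a + b) b → _)))
    (hB : Cross (ω ∘ (embX (s := a) (w := a' + b) (by omega) : Edg (a' + b) b → _)))
    (hC : Cross (ω ∘ (embC (s := a) (by omega) : Edg b b → _))) : Cross ω := by
  obtain ⟨j1, k1, hj1, hk1, h1⟩ := hA
  obtain ⟨j2, k2, hj2, hk2, h2⟩ := hB
  obtain ⟨j3, k3, hj3, hk3, h3⟩ := hC
  have r1 := eqv_reach (fun p => (((0 : ℕ) : ℤ) + p.1, (p.2 : ℤ))) (FS ω)
    (fun p q h => stepX _ ω h) h1
  have r2 := eqv_reach (fun p => ((a : ℤ) + p.1, (p.2 : ℤ))) (FS ω)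
    (fun p q h => stepX _ ω h) h2
  have r3 := eqv_reach (fun p => ((a : ℤ) + p.2, (p.1 : ℤ))) (FC a ω)
    (fun p q h => stepC _ ω h) h3
  simp only [Nat.cast_zero, zero_add, add_zero] at r1 r2 r3
  have hFS1 : ∀ x y, ((x, y, true) : H974.Edg) ∈ FS ω → 0 ≤ y ∧ y ≤ (b : ℤ) := by
    rintro x y (⟨i, j, he, -⟩ | ⟨i, j, he, -⟩)
    · simp only [Prod.mk.injEq] at he
      have := j.isLt
      omega
    · simp at he
  have hFS2 : ∀ x y, ((x, y, false) : H974.Edg) ∈ FS ω → 0 ≤ y ∧ y < (b : ℤ) := by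
    rintro x y (⟨i, j, he, -⟩ | ⟨i, j, he, -⟩)
    · simp at he
    · simp only [Prod.mk.injEq] at he
      have := j.isLt
      omega
  have key : H974.Reach (FS ω) (0, (j1 : ℤ)) ((a : ℤ), (j2 : ℤ)) := by
    rcases Nat.eq_zero_or_pos b with hb | hb
    · subst hb
      have e1 : k1 = 0 := by omega
      have e2 : j2 = 0 := by omega
      subst e1 e2
      simpa using r1
    · have m1 := meet (K := FS ω) (H := FC a ω) (a := a) (b := a + b) (c := 0) (d := b)
        (by omega) (by omega) (fun e he => he.1) (fun x y h _ _ => hFS1 x y h)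
        (fun x y h _ _ => hFS2 x y h)
        (by rintro x y ⟨-, h5, h6⟩ _ _; simp at h6; exact ⟨h5, h6⟩)
        (by rintro x y ⟨-, h5, h6⟩ _ _; simp at h6; exact ⟨h5, h6⟩)
        r1 (by simp) (by simp) r3 (by simp) (by simp)
      have m2 := meet (K := FS ω) (H := FC a ω) (a := a) (b := a + b) (c := 0) (d := b)
        (by omega) (by omega) (fun e he => he.1) (fun x y h _ _ => hFS1 x y h)
        (fun x y h _ _ => hFS2 x y h)
        (by rintro x y ⟨-, h5, h6⟩ _ _; simp at h6; exact ⟨h5, h6⟩)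
        (by rintro x y ⟨-, h5, h6⟩ _ _; simp at h6; exact ⟨h5, h6⟩)
        r2 (by simp) (by push_cast; omega) r3 (by simp) (by simp)
      exact m1.trans m2.symm
  have fin := reach_eqv (key.trans r2)
  refine ⟨j1, k2, hj1, hk2, ?_⟩
  have e3 : ((a : ℤ) + ((a' : ℤ) + (b : ℤ))).toNat = a + a' + b := by omega
  simpa [e3] using fin

/-! ### probability -/

theorem wgt_half {a b : ℕ} (ω : Edg a b → Bool) :
    wgt (1 / 2) ω = (1 / 2 : ℝ) ^ Fintype.card (Edg a b) := by
  have e : (1 : ℝ) - 1 / 2 = 1 / 2 := by norm_num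
  unfold wgt
  rw [e]
  simp only [ite_self, Finset.prod_const, Finset.card_univ]
  rw [← pow_add]
  simp [Edg]

/-- averages of functions of some coordinates -/
theorem marg {X Y : Type} [Fintype X] [Fintype Y] [DecidableEq X] [DecidableEq Y] (ι : X → Y)
    (hι : Function.Injective ι) (f : (X → Bool) → ℝ) :
    (1 / 2 : ℝ) ^ Fintype.card Y * ∑ ω : Y → Bool, f (ω ∘ ι) =
      (1 / 2 : ℝ) ^ Fintype.card X * ∑ η : X → Bool, f η := by
  classical
  let Z := ((Set.range ι)ᶜ : Set Y)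
  let e : X ⊕ Z ≃ Y :=
    ((Equiv.ofInjective ι hι).sumCongr (Equiv.refl _)).trans (Equiv.Set.sumCompl (Set.range ι))
  have he : ∀ x, e (Sum.inl x) = ι x := fun x => by
    show (Equiv.Set.sumCompl (Set.range ι)) (Sum.inl (Equiv.ofInjective ι hι x)) = ι x
    rw [Equiv.Set.sumCompl_apply_inl]
    rfl
  let E : ((X → Bool) × (Z → Bool)) ≃ (Y → Bool) :=
    (Equiv.sumArrowEquivProdArrow X Z Bool).symm.trans (Equiv.arrowCongr e (Equiv.refl _))
  have hE : ∀ p : (X → Bool) × (Z → Bool), (E p) ∘ ι = p.1 := by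
    intro p
    funext x
    have : e.symm (ι x) = Sum.inl x := by rw [← he, Equiv.symm_apply_apply]
    simp [E, Equiv.arrowCongr, Equiv.sumArrowEquivProdArrow, this]
  rw [← E.sum_comp]
  simp only [hE]
  rw [Fintype.sum_prod_type]
  simp only [Finset.sum_const, Finset.card_univ, Fintype.card_fun, Fintype.card_bool, nsmul_eq_mul]
  rw [← Finset.mul_sum]
  have hc : Fintype.card Y = Fintype.card X + Fintype.card Z := by
    rw [← Fintype.card_congr e, Fintype.card_sum]
  rw [hc, pow_add, ← mul_assoc, mul_assoc ((1 / 2 : ℝ) ^ Fintype.card X)]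
  have : (1 / 2 : ℝ) ^ Fintype.card Z * ((2 ^ Fintype.card Z : ℕ) : ℝ) = 1 := by
    push_cast
    rw [← mul_pow]; norm_num
  rw [this, mul_one]

open Classical in
/-- the indicator function -/
noncomputable def ind {X : Type} (E : (X → Bool) → Prop) (ω : X → Bool) : ℝ := if E ω then 1 else 0

theorem prob_half (a b : ℕ) :
    prob (1 / 2) a b = (1 / 2 : ℝ) ^ Fintype.card (Edg a b) * ∑ ω : Edg a b → Bool, ind Cross ω := by
  unfold prob
  rw [Finset.mul_sum]
  refine Finset.sum_congr rfl fun ω _ => ?_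
  rw [wgt_half]
  unfold ind
  split_ifs <;> simp

theorem ind_mono {X : Type} {E : (X → Bool) → Prop} (hE : ∀ ω ω', ω ≤ ω' → E ω → E ω') :
    Monotone (ind E) := by
  intro ω ω' h
  unfold ind
  by_cases h1 : E ω
  · rw [if_pos h1, if_pos (hE _ _ h h1)]
  · rw [if_neg h1]; split_ifs <;> norm_num

theorem ind_nonneg {X : Type} (E : (X → Bool) → Prop) : 0 ≤ ind E := by
  intro ω
  unfold ind
  split_ifs <;> simp

theorem harris {X : Type} [Fintype X] [DecidableEq X] (f g : (X → Bool) → ℝ) (hf0 : 0 ≤ f)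
    (hg0 : 0 ≤ g) (hf : Monotone f) (hg : Monotone g) :
    (∑ ω, f ω) * ∑ ω, g ω ≤ 2 ^ Fintype.card X * ∑ ω, f ω * g ω := by
  have h := fkg (α := X → Bool) (β := ℝ) (μ := fun _ => 1) (f := f) (g := g)
    (fun _ => zero_le_one) hf0 hg0 hf hg (fun _ _ => by simp)
  simpa using h

theorem cross_mono {a b : ℕ} {ω ω' : Edg a b → Bool} (h : ω ≤ ω') (hc : Cross ω) : Cross ω' := by
  obtain ⟨j, j', hj, hj', hr⟩ := hc
  refine ⟨j, j', hj, hj', hr.mono ?_⟩
  intro p q hs
  have hb : ∀ e, ω e = true → ω' e = true := by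
    intro e he
    have := h e
    rw [he] at this
    exact top_le_iff.mp this
  cases hs with
  | hor i j ho => exact Step.hor i j (hb _ ho)
  | ver i j ho => exact Step.ver i j (hb _ ho)

theorem comp_mono {X Y : Type} {ι : X → Y} {E : (X → Bool) → Prop}
    (hE : ∀ ω ω', ω ≤ ω' → E ω → E ω') (ω ω' : Y → Bool) (h : ω ≤ ω') :
    E (ω ∘ ι) → E (ω' ∘ ι) := hE _ _ fun x => h (ι x)

end Glu

open Glu in
/-- GLUE -/
theorem cl_glue (h : S_dual) (hs : S_sub) : S_glue := by
  classical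
  intro a a' b
  set M := a + a' + b with hM
  set c : ℝ := (1 / 2 : ℝ) ^ Fintype.card (Edg M b) with hc
  have hcpos : 0 < c := by positivity
  have hc2 : c * 2 ^ Fintype.card (Edg M b) = 1 := by
    rw [hc, ← mul_pow]; norm_num
  have hA0 : 0 + (a + b) ≤ M := by omega
  have hB0 : a + (a' + b) ≤ M := by omega
  have hC0 : a + b ≤ M := by omega
  set EA : (Edg M b → Bool) → Prop := fun ω => Cross (ω ∘ (embX hA0 : Edg (a + b) b → Edg M b))
    with hEA
  set EB : (Edg M b → Bool) → Prop := fun ω => Cross (ω ∘ (embX hB0 : Edg (a' + b) b → Edg M b))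
    with hEB
  set EC : (Edg M b → Bool) → Prop := fun ω => Cross (ω ∘ (embC hC0 : Edg b b → Edg M b))
    with hEC
  have mA : Monotone (ind EA) :=
    ind_mono (fun ω ω' hle hE => cross_mono (fun x => hle (_)) hE)
  have mB : Monotone (ind EB) :=
    ind_mono (fun ω ω' hle hE => cross_mono (fun x => hle (_)) hE)
  have mC : Monotone (ind EC) :=
    ind_mono (fun ω ω' hle hE => cross_mono (fun x => hle (_)) hE)
  have pA : prob (1 / 2) (a + b) b = c * ∑ ω, ind EA ω := by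
    rw [prob_half, hc, ← marg _ (embX_inj hA0)]
    rfl
  have pB : prob (1 / 2) (a' + b) b = c * ∑ ω, ind EB ω := by
    rw [prob_half, hc, ← marg _ (embX_inj hB0)]
    rfl
  have pC : prob (1 / 2) b b = c * ∑ ω, ind EC ω := by
    rw [prob_half, hc, ← marg _ (embC_inj hC0)]
    rfl
  have pM : prob (1 / 2) M b = c * ∑ ω : Edg M b → Bool, ind Cross ω := prob_half M b
  -- Harris twice
  have h1 := harris (ind EA) (ind EB) (ind_nonneg _) (ind_nonneg _) mA mB
  have mAB : Monotone (fun ω => ind EA ω * ind EB ω) := by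
    intro ω ω' hle
    exact mul_le_mul (mA hle) (mB hle) (ind_nonneg _ _) (ind_nonneg _ _)
  have h2 := harris (fun ω => ind EA ω * ind EB ω) (ind EC)
    (fun ω => mul_nonneg (ind_nonneg _ _) (ind_nonneg _ _)) (ind_nonneg _) mAB mC
  have h3 : ∑ ω, ind EA ω * ind EB ω * ind EC ω ≤ ∑ ω : Edg M b → Bool, ind Cross ω := by
    refine Finset.sum_le_sum fun ω _ => ?_
    by_cases hA : EA ω
    · by_cases hB : EB ω
      · by_cases hC : EC ω
        · have := glue_det ω hA hB hC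
          simp [ind, hA, hB, hC, this]
        · simp only [ind, if_neg hC, mul_zero]; split_ifs <;> norm_num
      · simp only [ind, if_neg hB, mul_zero, zero_mul]; split_ifs <;> norm_num
    · simp only [ind, if_neg hA, zero_mul]; split_ifs <;> norm_num
  -- the square
  have hsq : 1 / 2 ≤ prob (1 / 2) b b := by
    have d := h b b
    obtain ⟨s1, s2, s3⟩ := hs (1 / 2) (by norm_num) (by norm_num) b
    have e1 := s2 b 1
    have e2 := s2 0 0
    have s1' := s1 b
    have hle1 : prob (1 / 2) 1 b ≤ 1 := by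
      have d2 := h 0 b
      have := (hs (1 / 2) (by norm_num) (by norm_num) 0).1 (b + 1)
      rw [zero_add] at d2
      linarith
    nlinarith
  set SA := ∑ ω, ind EA ω
  set SB := ∑ ω, ind EB ω
  set SC := ∑ ω, ind EC ω
  have hSC : 0 ≤ SC := Finset.sum_nonneg fun ω _ => ind_nonneg _ _
  have hAB : prob (1 / 2) (a + b) b * prob (1 / 2) (a' + b) b ≤
      c * ∑ ω, ind EA ω * ind EB ω := by
    rw [pA, pB]
    calc c * SA * (c * SB) = c * c * (SA * SB) := by ring
      _ ≤ c * c * (2 ^ Fintype.card (Edg M b) * ∑ ω, ind EA ω * ind EB ω) :=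
          mul_le_mul_of_nonneg_left h1 (by positivity)
      _ = c * (c * 2 ^ Fintype.card (Edg M b)) * ∑ ω, ind EA ω * ind EB ω := by ring
      _ = _ := by rw [hc2]; ring
  have hABC : (c * ∑ ω, ind EA ω * ind EB ω) * prob (1 / 2) b b ≤
      c * ∑ ω, ind EA ω * ind EB ω * ind EC ω := by
    rw [pC]
    calc c * (∑ ω, ind EA ω * ind EB ω) * (c * SC)
        = c * c * ((∑ ω, ind EA ω * ind EB ω) * SC) := by ring
      _ ≤ c * c * (2 ^ Fintype.card (Edg M b) * ∑ ω, ind EA ω * ind EB ω * ind EC ω) :=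
          mul_le_mul_of_nonneg_left h2 (by positivity)
      _ = c * (c * 2 ^ Fintype.card (Edg M b)) * ∑ ω, ind EA ω * ind EB ω * ind EC ω := by ring
      _ = _ := by rw [hc2]; ring
  have hABnn : 0 ≤ c * ∑ ω, ind EA ω * ind EB ω :=
    mul_nonneg hcpos.le (Finset.sum_nonneg fun ω _ => mul_nonneg (ind_nonneg _ _) (ind_nonneg _ _))
  calc prob (1 / 2) (a + b) b * prob (1 / 2) (a' + b) b / 2
      ≤ (c * ∑ ω, ind EA ω * ind EB ω) * (1 / 2) := by linarith
    _ ≤ (c * ∑ ω, ind EA ω * ind EB ω) * prob (1 / 2) b b :=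
        mul_le_mul_of_nonneg_left hsq hABnn
    _ ≤ c * ∑ ω, ind EA ω * ind EB ω * ind EC ω := hABC
    _ ≤ c * ∑ ω : Edg M b → Bool, ind Cross ω := mul_le_mul_of_nonneg_left h3 hcpos.le
    _ = prob (1 / 2) M b := pM.symm

end W96CL
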